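import Pool.Agent.Lib.MP_72b724_gt.H6.Step

/-!
# MP_72b724_gt: the start of the contraction (module BASE)
-/

open Pool.Agent.Lib.MP_72b724_gt

namespace Pool.Agent.Lib.MP_72b724_gt.H6

noncomputable section

theorem eil_eq_pt {S : SimpSet} {P : S.Pt} {k m : ℕ} (hm : m < k) (x : (S.Eil P k).X m) :
    x = eilPt P k m := by
  apply Subtype.ext
  have h := x.2 m OrderHom.id hm
  rw [S.map_id] at h
  exact h

theorem alt_sum (m : ℕ) : ∑ i : Fin m, (-1 : ℝ) ^ (i : ℕ) = if Even m then 0 else 1 := by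
  induction m with
  | zero => simp
  | succ m ih =>
    rw [Fin.sum_univ_castSucc]
    simp only [Fin.val_castSucc, Fin.val_last]
    rw [ih]
    by_cases h : Even m
    · have h' : ¬ Even (m + 1) := by
        rw [Nat.not_even_iff_odd]; exact h.add_one
      rw [if_pos h, if_neg h', h.neg_one_pow]; ring
    · have h' : Even (m + 1) := (Nat.not_even_iff_odd.mp h).add_one
      rw [if_neg h, if_pos h', (Nat.not_even_iff_odd.mp h).neg_one_pow]; ring

theorem delta_eil {S : SimpSet} {P : S.Pt} {k m : ℕ} (hm : m < k) (f : Bdd ((S.Eil P k).X m))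
    (x : (S.Eil P k).X (m + 1)) :
    ((S.Eil P k).δ f).1 x = if Even m then 0 else f.1 (eilPt P k m) := by
  rw [delta_apply]
  have h1 : ∀ i : Fin (m + 2), (-1 : ℝ) ^ (i : ℕ) * f.1 ((S.Eil P k).d i x) =
      (-1 : ℝ) ^ (i : ℕ) * f.1 (eilPt P k m) := by
    intro i
    rw [eil_eq_pt hm ((S.Eil P k).d i x)]
  rw [Finset.sum_congr rfl (fun i _ => h1 i), ← Finset.sum_mul, alt_sum]
  by_cases h : Even m
  · have h' : Even (m + 2) := h.add (by decide)
    rw [if_pos h, if_pos h', zero_mul]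
  · have h' : ¬ Even (m + 2) := by
      intro h2
      exact h (by simpa [Nat.even_add] using h2)
    rw [if_neg h, if_neg h', one_mul]

/-- Evaluation at a point. -/
def evalAt {α : Type} (a : α) : Bdd α →ₗ[ℝ] ℝ where
  toFun f := f.1 a
  map_add' _ _ := rfl
  map_smul' _ _ := rfl

/-- Constant functions, linearly. -/
def constL (α : Type) : ℝ →ₗ[ℝ] Bdd α where
  toFun c := Bdd.const c
  map_add' _ _ := rfl
  map_smul' _ _ := rfl

theorem base : BaseStatement := by
  intro S P N
  constructor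
  · let kk : ∀ m : ℕ, Bdd ((S.Eil P (N + 2)).X (m + 1)) →ₗ[ℝ] Bdd ((S.Eil P (N + 2)).X m) :=
      fun m => if Even m then 0 else (constL _).comp (evalAt (eilPt P (N + 2) (m + 1)))
    have hk0 : ∀ m, Even m → ∀ f x, (kk m f).1 x = 0 := by
      intro m hm f x
      change (((if Even m then 0 else (constL _).comp (evalAt (eilPt P (N + 2) (m + 1)))) :
        Bdd ((S.Eil P (N + 2)).X (m + 1)) →ₗ[ℝ] Bdd ((S.Eil P (N + 2)).X m)) f).1 x = 0
      rw [if_pos hm]
      rfl
    have hk1 : ∀ m, ¬ Even m → ∀ f x, (kk m f).1 x = f.1 (eilPt P (N + 2) (m + 1)) := by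
      intro m hm f x
      change (((if Even m then 0 else (constL _).comp (evalAt (eilPt P (N + 2) (m + 1)))) :
        Bdd ((S.Eil P (N + 2)).X (m + 1)) →ₗ[ℝ] Bdd ((S.Eil P (N + 2)).X m)) f).1 x = _
      rw [if_neg hm]
      rfl
    refine ⟨evalAt (eilPt P (N + 2) 0), kk, ?_, ?_, ?_, ?_, ?_⟩
    · intro f C hf
      rw [one_mul]
      exact hf _
    · intro m _ f C hf x
      rw [one_mul]
      by_cases h : Even m
      · rw [hk0 m h, abs_zero]
        exact nonneg_of_le (eilPt P (N + 2) (m + 1)) hf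
      · rw [hk1 m h]
        exact hf _
    · rfl
    · intro f
      apply Subtype.ext
      funext x
      change (kk 0 ((S.Eil P (N + 2)).δ f)).1 x + f.1 (eilPt P (N + 2) 0) = f.1 x
      rw [hk0 0 (by decide), zero_add, eil_eq_pt (by omega) x]
    · intro m hm f
      apply Subtype.ext
      funext x
      change (kk (m + 1) ((S.Eil P (N + 2)).δ f)).1 x + ((S.Eil P (N + 2)).δ (kk m f)).1 x = f.1 x
      rw [eil_eq_pt (by omega) x, delta_eil (by omega)]
      by_cases h : Even m
      · have h' : ¬ Even (m + 1) := by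
          rw [Nat.not_even_iff_odd]; exact h.add_one
        rw [if_pos h, hk1 _ h', delta_eil (by omega), if_neg h', add_zero]
      · have h' : Even (m + 1) := (Nat.not_even_iff_odd.mp h).add_one
        rw [if_neg h, hk0 _ h', hk1 _ h, zero_add]
  · intro c hBC
    obtain ⟨k0, k, hk0, hk1, hk2, hk3, hk4⟩ := hBC
    let a : ∀ m, (S.Eil P 0).X m → S.toF.X m := fun m x => x.1
    let b : ∀ m, S.toF.X m → (S.Eil P 0).X m :=
      fun m x => ⟨x, fun j g hj => absurd hj (Nat.not_lt_zero _)⟩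
    have ha : ∀ m (i : Fin (m + 2)) (e : (S.Eil P 0).X (m + 1)),
      a m ((S.Eil P 0).d i e) = S.toF.d i (a (m + 1) e) := fun m i e => rfl
    have hb : ∀ m (i : Fin (m + 2)) (e : S.toF.X (m + 1)),
      b m (S.toF.d i e) = (S.Eil P 0).d i (b (m + 1) e) := fun m i e => rfl
    refine ⟨k0.comp (Bdd.pull (a 0)),
      fun m => (Bdd.pull (b m)).comp ((k m).comp (Bdd.pull (a (m + 1)))), ?_, ?_, ?_, ?_, ?_⟩
    · intro f C hf
      exact hk0 (Bdd.pull (a 0) f) C (fun x => hf _)
    · intro m hm f C hf x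
      exact hk1 m hm (Bdd.pull (a (m + 1)) f) C (fun x => hf _) _
    · exact hk2
    · intro f
      change Bdd.pull (b 0) (k 0 (Bdd.pull (a (0 + 1)) (S.toF.δ f))) +
        Bdd.const (k0 (Bdd.pull (a 0) f)) = f
      have e1 : Bdd.pull (a (0 + 1)) (S.toF.δ f) = (S.Eil P 0).δ (Bdd.pull (a 0) f) :=
        pull_delta a ha f
      have e2 := hk3 (Bdd.pull (a 0) f)
      rw [e1]
      have e3 := congrArg (Bdd.pull (b 0)) e2
      rw [map_add] at e3
      exact e3
    · intro m hm f
      change Bdd.pull (b (m + 1)) (k (m + 1) (Bdd.pull (a (m + 1 + 1)) (S.toF.δ f))) +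
        S.toF.δ (Bdd.pull (b m) (k m (Bdd.pull (a (m + 1)) f))) = f
      have e1 : Bdd.pull (a (m + 1 + 1)) (S.toF.δ f) =
        (S.Eil P 0).δ (Bdd.pull (a (m + 1)) f) := pull_delta a ha f
      have e2 := hk4 m hm (Bdd.pull (a (m + 1)) f)
      rw [e1, ← pull_delta b hb]
      have e3 := congrArg (Bdd.pull (b (m + 1))) e2
      rw [map_add] at e3
      exact e3

end

end Pool.Agent.Lib.MP_72b724_gt.H6
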