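import Pool.Agent.Lib.MP_72b724_gt.Interfaces

/-!
# MP_72b724_gt: the prism operator (module PRISMOP)
-/

open Pool.Agent.Lib.MP_72b724_gt

namespace Pool.Agent.Lib.MP_72b724_gt.H6

noncomputable section

theorem Bdd.coe_sum {α ι : Type} (s : Finset ι) (g : ι → Bdd α) (x : α) :
    (∑ i ∈ s, g i).1 x = ∑ i ∈ s, (g i).1 x := by
  classical
  induction s using Finset.induction_on with
  | empty => simp
  | insert a s ha ih =>
    rw [Finset.sum_insert ha, Finset.sum_insert ha]
    change (g a).1 x + (∑ i ∈ s, g i).1 x = _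
    rw [ih]

theorem delta_apply (F : FSet) {m : ℕ} (f : Bdd (F.X m)) (x : F.X (m + 1)) :
    (F.δ f).1 x = ∑ i : Fin (m + 2), (-1 : ℝ) ^ (i : ℕ) * f.1 (F.d i x) := by
  unfold FSet.δ
  rw [LinearMap.sum_apply, Bdd.coe_sum]
  rfl

/-- The double sum over pairs, split along the two diagonals. -/
theorem sum_split (m : ℕ) (g : Fin (m + 2) → Fin (m + 3) → ℝ) :
    ∑ j, ∑ i, g j i = ∑ j, (g j j.castSucc + g j j.succ) +
      ∑ i : Fin (m + 2), ∑ j : Fin (m + 1),
        g (i.succAbove j) ((i.succAbove j).castSucc.succAbove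
          ((i.succAbove j).succAbove (j.predAbove i))) := by
  have h1 : ∀ j : Fin (m + 2), ∑ i, g j i = (g j j.castSucc + g j j.succ) +
      ∑ a : Fin (m + 1), g j (j.castSucc.succAbove (j.succAbove a)) := by
    intro j
    rw [Fin.sum_univ_succAbove _ j.castSucc, Fin.sum_univ_succAbove _ j,
      Fin.succAbove_castSucc_self, add_assoc]
  rw [Finset.sum_congr rfl (fun j _ => h1 j), Finset.sum_add_distrib]
  congr 1
  rw [← Fintype.sum_prod_type', ← Fintype.sum_prod_type']
  refine Finset.sum_nbij' (fun x => (x.1.succAbove x.2, x.2.predAbove x.1))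
    (fun x => (x.1.succAbove x.2, x.2.predAbove x.1)) ?_ ?_ ?_ ?_ ?_
  · intro x _; exact Finset.mem_univ _
  · intro x _; exact Finset.mem_univ _
  · intro x _
    exact Prod.ext (Fin.succAbove_succAbove_predAbove _ _) (Fin.predAbove_predAbove_succAbove _ _)
  · intro x _
    exact Prod.ext (Fin.succAbove_succAbove_predAbove _ _) (Fin.predAbove_predAbove_succAbove _ _)
  · intro x _
    dsimp only
    rw [Fin.succAbove_succAbove_predAbove, Fin.predAbove_predAbove_succAbove]

theorem prismOp : PrismOpStatement := by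
  intro E F p q h hp
  let Q : ∀ m : ℕ, Bdd (F.X (m + 1)) →ₗ[ℝ] Bdd (E.X m) := fun m =>
    ∑ j : Fin (m + 1), ((-1 : ℝ) ^ (j : ℕ)) • Bdd.pull (fun e => h m e j)
  have hQ : ∀ m (f : Bdd (F.X (m + 1))) (e : E.X m),
      (Q m f).1 e = ∑ j : Fin (m + 1), (-1 : ℝ) ^ (j : ℕ) * f.1 (h m e j) := by
    intro m f e
    change ((∑ j : Fin (m + 1), ((-1 : ℝ) ^ (j : ℕ)) • Bdd.pull (fun e => h m e j)) f).1 e = _
    rw [LinearMap.sum_apply, Bdd.coe_sum]
    rfl
  refine ⟨Q, ?_, ?_, ?_⟩
  · intro m f C hf e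
    rw [hQ]
    refine (Finset.abs_sum_le_sum_abs _ _).trans ?_
    have : ∀ j ∈ (Finset.univ : Finset (Fin (m + 1))),
        |(-1 : ℝ) ^ (j : ℕ) * f.1 (h m e j)| ≤ C := by
      intro j _
      rw [abs_mul, abs_pow, abs_neg, abs_one, one_pow, one_mul]
      exact hf _
    refine (Finset.sum_le_sum this).trans ?_
    rw [Finset.sum_const, Finset.card_univ, Fintype.card_fin, nsmul_eq_mul]
    push_cast
    exact le_rfl
  · intro f
    apply Subtype.ext
    funext e
    have hQ0 : (Q 0 (F.δ f)).1 e = (F.δ f).1 (h 0 e 0) := by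
      rw [hQ]
      refine (Fin.sum_univ_one _).trans ?_
      rw [Fin.val_zero, pow_zero, one_mul]
    have hd0 : (F.δ f).1 (h 0 e 0) = f.1 (F.d 0 (h 0 e 0)) - f.1 (F.d 1 (h 0 e 0)) := by
      rw [delta_apply]
      refine (Fin.sum_univ_two _).trans ?_
      rw [Fin.val_zero, pow_zero, one_mul, Fin.val_one, pow_one]
      ring
    rw [hQ0, hd0]
    have h0 := hp.bot 0 e
    have h1 := hp.top 0 e
    have e1 : (Fin.last (0 + 1) : Fin (0 + 2)) = 1 := rfl
    have e2 : (Fin.last 0 : Fin (0 + 1)) = 0 := rfl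
    rw [e1, e2] at h1
    rw [h0, h1]
    rfl
  · intro m f
    apply Subtype.ext
    funext e
    change (Q (m + 1) (F.δ f)).1 e + (E.δ (Q m f)).1 e = f.1 (p (m + 1) e) - f.1 (q (m + 1) e)
    rw [hQ, delta_apply]
    simp only [delta_apply, hQ, Finset.mul_sum]
    rw [sum_split]
    have hd : ∑ j : Fin (m + 2), ((-1 : ℝ) ^ (j : ℕ) * ((-1 : ℝ) ^ (j.castSucc : ℕ) *
          f.1 (F.d j.castSucc (h (m + 1) e j))) +
        (-1 : ℝ) ^ (j : ℕ) * ((-1 : ℝ) ^ (j.succ : ℕ) * f.1 (F.d j.succ (h (m + 1) e j)))) =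
        f.1 (p (m + 1) e) - f.1 (q (m + 1) e) := by
      have e1 : ∀ j : Fin (m + 2), ((-1 : ℝ) ^ (j : ℕ) * ((-1 : ℝ) ^ (j.castSucc : ℕ) *
          f.1 (F.d j.castSucc (h (m + 1) e j))) +
        (-1 : ℝ) ^ (j : ℕ) * ((-1 : ℝ) ^ (j.succ : ℕ) * f.1 (F.d j.succ (h (m + 1) e j)))) =
          f.1 (F.d j.castSucc (h (m + 1) e j)) - f.1 (F.d j.succ (h (m + 1) e j)) := by
        intro j
        rw [Fin.val_castSucc, Fin.val_succ, pow_succ]
        rcases neg_one_pow_eq_or ℝ (j : ℕ) with h | h <;> rw [h] <;> ring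
      rw [Finset.sum_congr rfl (fun j _ => e1 j), Finset.sum_sub_distrib,
        Fin.sum_univ_succ, Fin.sum_univ_castSucc (n := m + 1)
          (f := fun j : Fin (m + 2) => f.1 (F.d j.succ (h (m + 1) e j)))]
      have h0 := hp.bot (m + 1) e
      have h1 := hp.top (m + 1) e
      have h2 : ∀ j : Fin (m + 1), f.1 (F.d j.succ.castSucc (h (m + 1) e j.succ)) =
          f.1 (F.d j.castSucc.succ (h (m + 1) e j.castSucc)) := by
        intro j
        rw [hp.mid m e j]
        rfl
      rw [Finset.sum_congr rfl (fun j _ => h2 j)]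
      have e3 : (Fin.castSucc (0 : Fin (m + 2))) = 0 := rfl
      have e4 : (Fin.last (m + 1)).succ = Fin.last (m + 2) := rfl
      rw [e3, e4, h0, h1]
      ring
    rw [hd]
    have hr : ∑ i : Fin (m + 2), ∑ j : Fin (m + 1),
        (-1 : ℝ) ^ ((i.succAbove j : Fin (m + 2)) : ℕ) *
          ((-1 : ℝ) ^ (((i.succAbove j).castSucc.succAbove
            ((i.succAbove j).succAbove (j.predAbove i)) : Fin (m + 3)) : ℕ) *
          f.1 (F.d ((i.succAbove j).castSucc.succAbove
            ((i.succAbove j).succAbove (j.predAbove i))) (h (m + 1) e (i.succAbove j)))) =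
        - ∑ i : Fin (m + 2), ∑ j : Fin (m + 1),
          (-1 : ℝ) ^ (i : ℕ) * ((-1 : ℝ) ^ (j : ℕ) * f.1 (h m (E.d i e) j)) := by
      rw [← Finset.sum_neg_distrib]
      refine Finset.sum_congr rfl fun i _ => ?_
      rw [← Finset.sum_neg_distrib]
      refine Finset.sum_congr rfl fun j _ => ?_
      rw [Fin.succAbove_succAbove_predAbove]
      by_cases hij : (i : ℕ) ≤ j
      · have a1 : i.succAbove j = j.succ := by
          apply Fin.succAbove_of_le_castSucc
          rw [Fin.le_def, Fin.val_castSucc]; exact hij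
        have a2 : (j.succ).castSucc.succAbove i = i.castSucc := by
          apply Fin.succAbove_of_castSucc_lt
          rw [Fin.lt_def, Fin.val_castSucc, Fin.val_castSucc, Fin.val_succ]; omega
        rw [a1, a2, hp.low m e i j hij, Fin.val_castSucc, Fin.val_succ, pow_succ]
        ring
      · have a1 : i.succAbove j = j.castSucc := by
          apply Fin.succAbove_of_castSucc_lt
          rw [Fin.lt_def, Fin.val_castSucc]; omega
        have a2 : (j.castSucc).castSucc.succAbove i = i.succ := by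
          apply Fin.succAbove_of_le_castSucc
          rw [Fin.le_def, Fin.val_castSucc, Fin.val_castSucc, Fin.val_castSucc]; omega
        rw [a1, a2, hp.upp m e i j (by omega), Fin.val_castSucc, Fin.val_succ, pow_succ]
        ring
    rw [hr]
    ring

end

end Pool.Agent.Lib.MP_72b724_gt.H6
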