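import Pool.Agent.Lib.MP_72b724_gt.H6.PrismOp

/-!
# MP_72b724_gt: one step of the contraction (module STEP)
-/

open Pool.Agent.Lib.MP_72b724_gt

namespace Pool.Agent.Lib.MP_72b724_gt.H6

noncomputable section

theorem pull_delta {E F : FSet} (g : ∀ m, E.X m → F.X m)
    (hg : ∀ m (i : Fin (m + 2)) e, g m (E.d i e) = F.d i (g (m + 1) e)) {m : ℕ}
    (f : Bdd (F.X m)) : Bdd.pull (g (m + 1)) (F.δ f) = E.δ (Bdd.pull (g m) f) := by
  apply Subtype.ext
  funext e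
  change (F.δ f).1 (g (m + 1) e) = _
  rw [delta_apply, delta_apply]
  refine Finset.sum_congr rfl fun i _ => ?_
  change _ = _ * f.1 (g m (E.d i e))
  rw [hg]

theorem pt_triv {S : SimpSet} (P : S.Pt) (k m : ℕ) : S.Triv P k (P.pt m) := by
  intro j g _
  exact P.map_pt g

/-- The base point of the Eilenberg subcomplex. -/
def eilPt {S : SimpSet} (P : S.Pt) (k m : ℕ) : (S.Eil P k).X m := ⟨P.pt m, pt_triv P k m⟩

theorem nonneg_of_le {α : Type} (a : α) {f : Bdd α} {C : ℝ} (h : Bdd.Le f C) : 0 ≤ C :=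
  (abs_nonneg _).trans (h a)

theorem step : PrismOpStatement → StepStatement := by
  intro hPO S P k T hAvg hPrism N c hBC
  obtain ⟨Av, hAv1, hAv2, hAv3⟩ := hAvg
  obtain ⟨r, h, hr, hh⟩ := hPrism
  obtain ⟨Q, hQ1, hQ2, hQ3⟩ := hPO T.E (S.Eil P k) (fun _ => T.proj)
    (fun m e => SimpSet.Eil.incl (r m e)) h hh
  obtain ⟨k0', k', hk0, hk1, hk2, hk3, hk4⟩ := hBC
  -- the map to the subcomplex
  let inc : ∀ m, (S.Eil P (k + 1)).X m → (S.Eil P k).X m := fun m x => SimpSet.Eil.incl x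
  have hinc : ∀ m (i : Fin (m + 2)) (e : (S.Eil P (k + 1)).X (m + 1)),
      inc m ((S.Eil P (k + 1)).d i e) = (S.Eil P k).d i (inc (m + 1) e) := fun m i e => rfl
  have hAvd : ∀ m (f : Bdd (T.E.X m)), Av (m + 1) (T.E.δ f) = (S.Eil P k).δ (Av m f) := by
    intro m f
    unfold FSet.δ
    rw [LinearMap.sum_apply, LinearMap.sum_apply, map_sum]
    refine Finset.sum_congr rfl fun i _ => ?_
    rw [LinearMap.smul_apply, LinearMap.smul_apply, map_smul, hAv3]
  have hAvc : ∀ a : ℝ, Av 0 (Bdd.const a) = Bdd.const a := fun a => hAv2 0 (Bdd.const a)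
  have hpull : ∀ m (f : Bdd ((S.Eil P k).X m)),
      Bdd.pull (fun e => SimpSet.Eil.incl (r m e)) f = Bdd.pull (r m) (Bdd.pull (inc m) f) :=
    fun m f => rfl
  let kk : ∀ m : ℕ, Bdd ((S.Eil P k).X (m + 1)) →ₗ[ℝ] Bdd ((S.Eil P k).X m) := fun m =>
    (Av m).comp (Q m) + (Av m).comp ((Bdd.pull (r m)).comp ((k' m).comp (Bdd.pull (inc (m + 1)))))
  have hkk : ∀ m f, kk m f = Av m (Q m f) +
      Av m (Bdd.pull (r m) (k' m (Bdd.pull (inc (m + 1)) f))) := fun m f => rfl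
  refine ⟨k0'.comp (Bdd.pull (inc 0)), kk, ?_, ?_, ?_, ?_, ?_⟩
  · intro f C hf
    have hC : 0 ≤ C := nonneg_of_le (eilPt P k 0) hf
    have h1 := hk0 (Bdd.pull (inc 0) f) C (fun x => hf _)
    refine h1.trans ?_
    have : 0 ≤ ((N : ℝ) + 1) * C := by positivity
    nlinarith
  · intro m hm f C hf x
    have hC : 0 ≤ C := nonneg_of_le (eilPt P k (m + 1)) hf
    have h1 := hAv1 m (Q m f) _ (hQ1 m f C hf) x
    have h2 := hAv1 m (Bdd.pull (r m) (k' m (Bdd.pull (inc (m + 1)) f))) (c * C)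
      (fun y => hk1 m hm (Bdd.pull (inc (m + 1)) f) C (fun z => hf _) _) x
    rw [hkk]
    change |(Av m (Q m f)).1 x + (Av m (Bdd.pull (r m) (k' m (Bdd.pull (inc (m + 1)) f)))).1 x| ≤ _
    refine (abs_add_le _ _).trans ((add_le_add h1 h2).trans ?_)
    have h3 : (m : ℝ) ≤ N := by exact_mod_cast hm
    have h4 : (m : ℝ) * C ≤ N * C := mul_le_mul_of_nonneg_right h3 hC
    nlinarith
  · exact hk2
  · intro f
    have e1 : Bdd.pull (inc 1) ((S.Eil P k).δ f) = (S.Eil P (k + 1)).δ (Bdd.pull (inc 0) f) :=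
      pull_delta inc hinc f
    have e2 : k' 0 ((S.Eil P (k + 1)).δ (Bdd.pull (inc 0) f)) =
        Bdd.pull (inc 0) f - Bdd.const (k0' (Bdd.pull (inc 0) f)) :=
      eq_sub_of_add_eq (hk3 (Bdd.pull (inc 0) f))
    have e3 : kk 0 ((S.Eil P k).δ f) = f - Bdd.const (k0' (Bdd.pull (inc 0) f)) := by
      rw [hkk]
      have e4 : Bdd.pull (inc (0 + 1)) ((S.Eil P k).δ f) =
        (S.Eil P (k + 1)).δ (Bdd.pull (inc 0) f) := e1
      rw [e4, e2, hQ2, map_sub, map_sub, map_sub, hpull]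
      have e5 : Av 0 (Bdd.pull T.proj f) = f := hAv2 0 f
      have e6 : Av 0 (Bdd.pull (r 0) (Bdd.const (k0' (Bdd.pull (inc 0) f)))) =
          Bdd.const (k0' (Bdd.pull (inc 0) f)) := hAvc _
      rw [e5, e6]
      abel
    rw [e3]
    change f - Bdd.const (k0' (Bdd.pull (inc 0) f)) + Bdd.const (k0' (Bdd.pull (inc 0) f)) = f
    abel
  · intro m hm f
    have e1 : Bdd.pull (inc (m + 1 + 1)) ((S.Eil P k).δ f) =
        (S.Eil P (k + 1)).δ (Bdd.pull (inc (m + 1)) f) := pull_delta inc hinc f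
    have e2 : (S.Eil P k).δ (kk m f) = Av (m + 1) (T.E.δ (Q m f)) +
        Av (m + 1) (Bdd.pull (r (m + 1))
          ((S.Eil P (k + 1)).δ (k' m (Bdd.pull (inc (m + 1)) f)))) := by
      rw [hkk, map_add, ← hAvd, ← hAvd, pull_delta r hr]
    have e3 : kk (m + 1) ((S.Eil P k).δ f) = Av (m + 1) (Q (m + 1) ((S.Eil P k).δ f)) +
        Av (m + 1) (Bdd.pull (r (m + 1)) (k' (m + 1)
          ((S.Eil P (k + 1)).δ (Bdd.pull (inc (m + 1)) f)))) := by
      rw [hkk, e1]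
    rw [e2, e3, add_add_add_comm, ← map_add, ← map_add, ← map_add (Bdd.pull (r (m + 1))),
      ← map_add, hQ3, hk4 m hm, hpull, sub_add_cancel]
    exact hAv2 (m + 1) f

end

end Pool.Agent.Lib.MP_72b724_gt.H6
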